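import Mathlib

/-!
A separable Banach space without a normal complete minimal sequence.

The space is `C([0,1], K)` with the equivalent norm
`N x = sup |x| + 4 |x 0| + sum over k of 2^(-k) |x (1/(k+1))|`.
-/

namespace Pool.Agent.Results.MP_fd050c_an.NoNormalSystem

open Filter Topology

/-- The abstract obstruction. -/
theorem obstruction {𝕜 : Type*} [RCLike 𝕜] {E : Type*} [NormedAddCommGroup E] [NormedSpace 𝕜 E]
    (φ : E →L[𝕜] 𝕜) (e : E) (he : φ e = 1)
    (H1 : ∀ x : E, ‖x - φ x • e‖ ≤ ‖x‖ - ‖φ x‖)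
    (H2 : ∀ S : Finset E, ∃ v : E, φ v = 0 ∧ ∀ x ∈ S, φ x ≠ 0 → ‖x - φ x • v‖ < ‖x‖)
    (x : ℕ → E) (f : ℕ → E →L[𝕜] 𝕜)
    (hb : ∀ i j, f i (x j) = if i = j then 1 else 0)
    (hd : Dense (Submodule.span 𝕜 (Set.range x) : Set E))
    (hx : ∀ n, ‖x n‖ = 1) (hf : ∀ n, ‖f n‖ = 1) : False := by
  classical
  have hre : ∀ n (w : E), RCLike.re (f n w) ≤ ‖w‖ := fun n w =>
    (RCLike.re_le_norm _).trans (by simpa [hf n] using (f n).le_opNorm w)
  have hdiag : ∀ n, f n (x n) = 1 := fun n => by simp [hb]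
  -- every element of the span is killed by almost all functionals
  have hspan : ∀ y ∈ Submodule.span 𝕜 (Set.range x), ∀ᶠ n in atTop, f n y = 0 := by
    intro y hy
    induction hy using Submodule.span_induction with
    | mem y hy =>
      obtain ⟨j, rfl⟩ := hy
      filter_upwards [eventually_gt_atTop j] with n hn
      simp [hb, hn.ne']
    | zero => simp
    | add a b _ _ ha hb' =>
      filter_upwards [ha, hb'] with n h1 h2
      simp [h1, h2]
    | smul c a _ ha =>
      filter_upwards [ha] with n h1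
      simp [h1]
  obtain ⟨y, hy1, hy2⟩ := Metric.dense_iff.1 hd e 1 one_pos
  obtain ⟨M, hM⟩ := eventually_atTop.1 (hspan y hy2)
  have hsmall : ∀ n ≥ M, ‖f n e‖ < 1 := by
    intro n hn
    have h1 : f n e = f n (e - y) := by simp [hM n hn]
    have h2 : ‖e - y‖ < 1 := by
      rw [Metric.mem_ball, dist_comm, dist_eq_norm] at hy1
      exact hy1
    rw [h1]
    exact lt_of_le_of_lt (by simpa [hf n] using (f n).le_opNorm (e - y)) h2
  have hzero : ∀ n ≥ M, φ (x n) = 0 := by
    intro n hn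
    by_contra hne
    have h1 := (hre n _).trans (H1 (x n))
    simp only [map_sub, map_smul, hdiag, hx, smul_eq_mul, RCLike.one_re] at h1
    have h2 : RCLike.re (φ (x n) * f n e) ≤ ‖φ (x n)‖ * ‖f n e‖ :=
      (RCLike.re_le_norm _).trans (norm_mul_le _ _)
    have h3 : 0 < ‖φ (x n)‖ := norm_pos_iff.2 hne
    have h4 := hsmall n hn
    nlinarith
  -- phi is a finite combination of the functionals
  have hext : ∀ g h : E →L[𝕜] 𝕜, (∀ j, g (x j) = h (x j)) → g = h := by
    intro g h hgh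
    refine ContinuousLinearMap.ext_on hd ?_
    rintro _ ⟨j, rfl⟩
    exact hgh j
  have hφ : φ = ∑ i ∈ Finset.range M, φ (x i) • f i := by
    refine hext _ _ fun j => ?_
    simp only [FunLike.coe_sum, Finset.sum_apply, FunLike.coe_smul,
      Pi.smul_apply, hb, smul_eq_mul, mul_ite, mul_one, mul_zero, Finset.sum_ite_eq',
      Finset.mem_range]
    split_ifs with hj
    · rfl
    · exact hzero j (not_lt.1 hj)
  obtain ⟨v, hv0, hv⟩ := H2 ((Finset.range M).image x)
  have hpos : ∀ i ∈ Finset.range M, φ (x i) ≠ 0 → 0 < RCLike.re (φ (x i) * f i v) := by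
    intro i hi hne
    have h1 := (hre i _).trans_lt (hv (x i) (Finset.mem_image_of_mem x hi) hne)
    simp only [map_sub, map_smul, hdiag, hx, smul_eq_mul, RCLike.one_re] at h1
    linarith
  have hnn : ∀ i ∈ Finset.range M, 0 ≤ RCLike.re (φ (x i) * f i v) := by
    intro i hi
    by_cases hne : φ (x i) = 0
    · simp [hne]
    · exact (hpos i hi hne).le
  have hsum : ∑ i ∈ Finset.range M, RCLike.re (φ (x i) * f i v) = 0 := by
    have h1 : φ v = ∑ i ∈ Finset.range M, φ (x i) * f i v := by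
      conv_lhs => rw [hφ]
      simp
    rw [← map_sum, ← h1, hv0, map_zero]
  have hall : ∀ j, φ (x j) = 0 := by
    intro j
    by_cases hj : j < M
    · by_contra hne
      have h1 := (Finset.sum_eq_zero_iff_of_nonneg hnn).1 hsum j (Finset.mem_range.2 hj)
      exact (hpos j (Finset.mem_range.2 hj) hne).ne' h1
    · exact hzero j (not_lt.1 hj)
  have h0 : φ = 0 := hext _ _ fun j => by simp [hall j]
  simp [h0] at he

/-- The sample points `1/(k+1)`. -/
noncomputable def pt (k : ℕ) : unitInterval :=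
  ⟨1 / ((k : ℝ) + 1), by positivity, by
    rw [div_le_one (by positivity)]
    linarith [Nat.cast_nonneg (α := ℝ) k]⟩

section Space

variable {𝕜 : Type*} [RCLike 𝕜]

/-- The weighted sum of values at the sample points. -/
noncomputable def tail (x : C(unitInterval, 𝕜)) : ℝ := ∑' k : ℕ, (1 / 2 : ℝ) ^ k * ‖x (pt k)‖

theorem summable_const (c : ℝ) : Summable fun k : ℕ => (1 / 2 : ℝ) ^ k * c :=
  summable_geometric_two.mul_right c

theorem tsum_const (c : ℝ) : ∑' k : ℕ, (1 / 2 : ℝ) ^ k * c = 2 * c := by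
  rw [tsum_mul_right, tsum_geometric_two]

theorem summable_tail (x : C(unitInterval, 𝕜)) :
    Summable fun k : ℕ => (1 / 2 : ℝ) ^ k * ‖x (pt k)‖ :=
  Summable.of_nonneg_of_le (fun k => by positivity)
    (fun k => mul_le_mul_of_nonneg_left (x.norm_coe_le_norm _) (by positivity))
    (summable_const ‖x‖)

theorem tail_nonneg (x : C(unitInterval, 𝕜)) : 0 ≤ tail x :=
  tsum_nonneg fun k => by positivity

theorem tail_le (x : C(unitInterval, 𝕜)) : tail x ≤ 2 * ‖x‖ := by
  rw [← tsum_const]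
  exact (summable_tail x).tsum_le_tsum
    (fun k => mul_le_mul_of_nonneg_left (x.norm_coe_le_norm _) (by positivity))
    (summable_const _)

theorem tail_add_le (x y : C(unitInterval, 𝕜)) : tail (x + y) ≤ tail x + tail y := by
  unfold tail
  rw [← (summable_tail x).tsum_add (summable_tail y)]
  refine (summable_tail _).tsum_le_tsum (fun k => ?_) ((summable_tail x).add (summable_tail y))
  rw [← mul_add]
  exact mul_le_mul_of_nonneg_left (by simpa using norm_add_le _ _) (by positivity)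

theorem tail_smul (c : 𝕜) (x : C(unitInterval, 𝕜)) : tail (c • x) = ‖c‖ * tail x := by
  unfold tail
  rw [← tsum_mul_left]
  congr 1
  funext k
  simp only [ContinuousMap.smul_apply, norm_smul]
  ring

/-- The new norm. -/
noncomputable def N (x : C(unitInterval, 𝕜)) : ℝ := ‖x‖ + 4 * ‖x 0‖ + tail x

theorem le_N (x : C(unitInterval, 𝕜)) : ‖x‖ ≤ N x := by
  have := tail_nonneg x
  have := norm_nonneg (x 0)
  unfold N
  linarith

theorem N_le (x : C(unitInterval, 𝕜)) : N x ≤ 7 * ‖x‖ := by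
  have := tail_le x
  have := x.norm_coe_le_norm 0
  unfold N
  linarith

theorem N_add_le (x y : C(unitInterval, 𝕜)) : N (x + y) ≤ N x + N y := by
  have h1 := tail_add_le x y
  have h2 := norm_add_le x y
  have h3 : ‖(x + y) 0‖ ≤ ‖x 0‖ + ‖y 0‖ := by simpa using norm_add_le _ _
  unfold N
  linarith

theorem N_smul (c : 𝕜) (x : C(unitInterval, 𝕜)) : N (c • x) = ‖c‖ * N x := by
  unfold N
  rw [tail_smul, norm_smul, ContinuousMap.smul_apply, norm_smul]
  ring

theorem N_sub_const (x : C(unitInterval, 𝕜)) :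
    N (x - x 0 • (1 : C(unitInterval, 𝕜))) ≤ N x - ‖x 0‖ := by
  have h0 : ‖(-(x 0)) • (1 : C(unitInterval, 𝕜))‖ = ‖x 0‖ := by
    rw [norm_smul, norm_neg, norm_one, mul_one]
  have he : x - x 0 • (1 : C(unitInterval, 𝕜)) = x + (-(x 0)) • (1 : C(unitInterval, 𝕜)) := by
    ext s
    simp [sub_eq_add_neg]
  have h1 := tail_add_le x ((-(x 0)) • (1 : C(unitInterval, 𝕜)))
  have h2 := tail_le ((-(x 0)) • (1 : C(unitInterval, 𝕜)))
  have h3 := norm_add_le x ((-(x 0)) • (1 : C(unitInterval, 𝕜)))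
  have h4 : (x + (-(x 0)) • (1 : C(unitInterval, 𝕜))) 0 = 0 := by simp
  rw [he]
  unfold N
  rw [h4, norm_zero]
  rw [h0] at h2 h3
  linarith

/-- A tent function supported in `(0, d)`. -/
noncomputable def bump (d : ℝ) : C(unitInterval, 𝕜) :=
  ⟨fun s => ((max 0 (min (s : ℝ) (d - s)) : ℝ) : 𝕜), by fun_prop⟩

theorem pointwise (a z : 𝕜) (t : ℝ) (ht0 : 0 < t) (ht1 : t ≤ 1) (h : ‖z - a‖ < ‖a‖ / 2) :
    ‖z - a * (t : 𝕜)‖ < ‖z‖ := by
  have h1 : ‖a‖ ≤ ‖z‖ + ‖z - a‖ := by
    have := norm_sub_le z (z - a)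
    simpa using this
  have h2 : z - a * (t : 𝕜) = ((1 - t : ℝ) : 𝕜) * z + (t : 𝕜) * (z - a) := by
    push_cast
    ring
  have h3 : ‖z - a * (t : 𝕜)‖ ≤ (1 - t) * ‖z‖ + t * ‖z - a‖ := by
    rw [h2]
    refine (norm_add_le _ _).trans ?_
    rw [norm_mul, norm_mul, RCLike.norm_ofReal, RCLike.norm_ofReal, abs_of_nonneg (by linarith),
      abs_of_pos ht0]
  nlinarith

theorem N_sub_bump (x : C(unitInterval, 𝕜)) (d : ℝ) (hd : 0 < d)
    (h : ∀ s : unitInterval, (s : ℝ) < d → ‖x s - x 0‖ < ‖x 0‖ / 2) :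
    N (x - x 0 • (bump d : C(unitInterval, 𝕜))) < N x := by
  set w : C(unitInterval, 𝕜) := x - x 0 • (bump d : C(unitInterval, 𝕜)) with hw
  have hval : ∀ s, w s = x s - x 0 * ((max 0 (min (s : ℝ) (d - s)) : ℝ) : 𝕜) := fun s => by
    simp [hw, bump]
  have hlt : ∀ s : unitInterval, 0 < min (s : ℝ) (d - s) → ‖w s‖ < ‖x s‖ := by
    intro s hs
    rw [hval, max_eq_right hs.le]
    refine pointwise _ _ _ hs ((min_le_left _ _).trans s.2.2) (h s ?_)
    have := hs.trans_le (min_le_right _ _)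
    linarith
  have hle : ∀ s, ‖w s‖ ≤ ‖x s‖ := by
    intro s
    by_cases hs : 0 < min (s : ℝ) (d - s)
    · exact (hlt s hs).le
    · rw [hval, max_eq_left (not_lt.1 hs)]
      simp
  have h1 : ‖w‖ ≤ ‖x‖ :=
    (ContinuousMap.norm_le _ (norm_nonneg _)).2 fun s => (hle s).trans (x.norm_coe_le_norm s)
  have h2 := hle 0
  obtain ⟨k, hk⟩ := exists_nat_one_div_lt hd
  have h3 : tail w < tail x := by
    refine (summable_tail w).tsum_lt_tsum (i := k)
      (fun j => mul_le_mul_of_nonneg_left (hle _) (by positivity)) ?_ (summable_tail x)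
    refine mul_lt_mul_of_pos_left (hlt _ (lt_min ?_ ?_)) (by positivity)
    · show (0 : ℝ) < 1 / ((k : ℝ) + 1)
      positivity
    · show (0 : ℝ) < d - 1 / ((k : ℝ) + 1)
      linarith
  unfold N
  linarith

theorem exists_radius (S : Finset C(unitInterval, 𝕜)) :
    ∃ d : ℝ, 0 < d ∧ ∀ x ∈ S, x 0 ≠ 0 → ∀ s : unitInterval, (s : ℝ) < d →
      ‖x s - x 0‖ < ‖x 0‖ / 2 := by
  have h : ∀ᶠ s : unitInterval in 𝓝 0, ∀ x ∈ S, x 0 ≠ 0 → ‖x s - x 0‖ < ‖x 0‖ / 2 := by
    rw [Filter.eventually_all_finset]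
    intro x _
    by_cases hx : x 0 = 0
    · simp [hx]
    · have h1 : (0 : ℝ) < ‖x 0‖ / 2 := half_pos (norm_pos_iff.2 hx)
      have h2 := Metric.tendsto_nhds.1 (x.continuous.tendsto 0) _ h1
      filter_upwards [h2] with s hs _
      rwa [dist_eq_norm] at hs
  obtain ⟨d, hd, hd2⟩ := Metric.eventually_nhds_iff.1 h
  refine ⟨d, hd, fun x hx hx0 s hs => hd2 ?_ x hx hx0⟩
  rw [Subtype.dist_eq, Real.dist_eq]
  simpa [abs_of_nonneg s.2.1] using hs

theorem not_finite : ¬ FiniteDimensional 𝕜 C(unitInterval, 𝕜) := by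
  intro hfin
  let L : Polynomial 𝕜 →ₗ[𝕜] C(unitInterval, 𝕜) :=
    { toFun := fun p => ⟨fun s => p.eval ((s : ℝ) : 𝕜), by fun_prop⟩
      map_add' := fun p q => by ext s; simp
      map_smul' := fun c p => by ext s; simp }
  have hL : Function.Injective L := by
    rw [injective_iff_map_eq_zero]
    intro p hp
    refine Polynomial.eq_zero_of_infinite_isRoot p ?_
    have hinj : Function.Injective fun k : ℕ => (((pt k : unitInterval) : ℝ) : 𝕜) := by
      intro a b hab
      have h1 : (1 : ℝ) / ((a : ℝ) + 1) = 1 / ((b : ℝ) + 1) := RCLike.ofReal_injective hab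
      rw [div_eq_div_iff (by positivity) (by positivity)] at h1
      exact_mod_cast (by linarith : (a : ℝ) = b)
    refine Set.infinite_of_injective_forall_mem hinj fun k => ?_
    exact DFunLike.congr_fun hp (pt k)
  exact Polynomial.not_finite (R := 𝕜) (Module.Finite.of_injective L hL)

end Space

/-- Continuous functions on the unit interval, to be given the new norm. -/
def X (𝕜 : Type) [RCLike 𝕜] : Type := C(unitInterval, 𝕜)

variable {𝕜 : Type} [RCLike 𝕜]

noncomputable instance : AddCommGroup (X 𝕜) := inferInstanceAs (AddCommGroup C(unitInterval, 𝕜))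

noncomputable instance : Module 𝕜 (X 𝕜) := inferInstanceAs (Module 𝕜 C(unitInterval, 𝕜))

/-- The identity map. -/
def toC : X 𝕜 ≃ₗ[𝕜] C(unitInterval, 𝕜) := LinearEquiv.refl 𝕜 C(unitInterval, 𝕜)

noncomputable instance : NormedAddCommGroup (X 𝕜) :=
  AddGroupNorm.toNormedAddCommGroup
    { toFun := fun x => N (toC x)
      map_zero' := by
        have := N_smul (0 : 𝕜) (0 : C(unitInterval, 𝕜))
        simpa using this
      add_le' := fun x y => by
        rw [map_add]
        exact N_add_le _ _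
      neg' := fun x => by
        have h1 := N_smul (-1 : 𝕜) (toC x)
        have h2 : ((-1 : 𝕜) • toC x) = toC (-x) := by
          ext s
          simp
        rw [h2] at h1
        simpa using h1
      eq_zero_of_map_eq_zero' := fun x hx => by
        have h1 := le_N (toC x)
        rw [hx] at h1
        have h2 : toC x = 0 := norm_le_zero_iff.1 h1
        exact toC.map_eq_zero_iff.1 h2 }

theorem norm_def (x : X 𝕜) : ‖x‖ = N (toC x) := rfl

noncomputable instance : NormedSpace 𝕜 (X 𝕜) where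
  norm_smul_le c x := by
    rw [norm_def, norm_def, map_smul, N_smul]

/-- The identity map as a linear homeomorphism. -/
noncomputable def toCL : X 𝕜 ≃L[𝕜] C(unitInterval, 𝕜) :=
  toC.toContinuousLinearEquivOfBounds 1 7
    (fun x => by rw [one_mul, norm_def]; exact le_N _)
    (fun x => by rw [norm_def, LinearEquiv.apply_symm_apply]; exact N_le _)

theorem result (𝕜 : Type) [RCLike 𝕜] :
    ∃ (E : Type) (_ : NormedAddCommGroup E) (_ : NormedSpace 𝕜 E),
      CompleteSpace E ∧ TopologicalSpace.SeparableSpace E ∧ ¬ FiniteDimensional 𝕜 E ∧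
      ∀ (x : ℕ → E) (f : ℕ → E →L[𝕜] 𝕜),
        (∀ i j, f i (x j) = if i = j then 1 else 0) →
        (Submodule.span 𝕜 (Set.range x)).topologicalClosure = ⊤ →
        ∃ n, ‖x n‖ ≠ 1 ∨ ‖f n‖ ≠ 1 := by
  classical
  refine ⟨X 𝕜, inferInstance, inferInstance, ?_, ?_, ?_, ?_⟩
  · exact (completeSpace_congr (e := (toCL (𝕜 := 𝕜)).toEquiv)
      (toCL (𝕜 := 𝕜)).isUniformEmbedding).2 inferInstance
  · exact (toCL (𝕜 := 𝕜)).symm.surjective.denseRange.separableSpace
      (toCL (𝕜 := 𝕜)).symm.continuous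
  · intro h
    exact not_finite (𝕜 := 𝕜) (LinearEquiv.finiteDimensional toC)
  · intro x f hb hd
    by_contra hcon
    push Not at hcon
    let φ : X 𝕜 →L[𝕜] 𝕜 :=
      (ContinuousMap.evalCLM 𝕜 (0 : unitInterval)).comp (toCL (𝕜 := 𝕜)).toContinuousLinearMap
    have hφ : ∀ y : X 𝕜, φ y = toC y 0 := fun y => rfl
    refine obstruction φ (toC.symm 1) ?_ ?_ ?_ x f hb
      (Submodule.dense_iff_topologicalClosure_eq_top.2 hd) (fun n => (hcon n).1)
      (fun n => (hcon n).2)
    · rw [hφ]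
      simp
    · intro y
      rw [norm_def, norm_def, hφ, map_sub, map_smul, LinearEquiv.apply_symm_apply]
      exact N_sub_const _
    · intro S
      obtain ⟨d, hd0, hd1⟩ := exists_radius (S.image toC)
      refine ⟨toC.symm (bump d), ?_, fun y hy hy0 => ?_⟩
      · rw [hφ, LinearEquiv.apply_symm_apply]
        simp [bump]
      · rw [norm_def, norm_def, hφ, map_sub, map_smul, LinearEquiv.apply_symm_apply]
        exact N_sub_bump _ d hd0 (hd1 _ (Finset.mem_image_of_mem _ hy) hy0)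

end Pool.Agent.Results.MP_fd050c_an.NoNormalSystem
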